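import Pool.Agent.W479.Main

/-! Voisin's conjecture on 0-cycles for products of two curves: if `S = C₁ × C₂` and
`n > g(C₁) g(C₂) = p_g(S)`, then the alternating sum of the exterior products of any `n`
Albanese-trivial 0-cycles on `S` is rationally equivalent to zero on `S^n`. -/

set_option autoImplicit false

namespace Pool.Agent.Results.MP_83b46e_ag.ProductsOfCurves

open FF Pool.Agent.W479

universe u

theorem result {k : Type u} [Field k] [IsAlgClosed k] [CharZero k]
    (F₁ F₂ : Type u) [Field F₁] [Algebra k F₁] [IsFF k F₁] [Field F₂] [Algebra k F₂] [IsFF k F₂]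
    (n : ℕ) (hn : genus k F₁ * genus k F₂ < n)
    (a : Fin n → ((Place k F₁ × Place k F₂) →₀ ℤ)) (ha : ∀ i, AlbTrivial (a i)) :
    (∑ σ : Equiv.Perm (Fin n), (Equiv.Perm.sign σ : ℤ) • prodCycle (fun i => a (σ i)))
      ∈ RatTriv k F₁ F₂ n :=
  main hn a ha

end Pool.Agent.Results.MP_83b46e_ag.ProductsOfCurves
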