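import Pool.Agent.W479.MainSym

/-! Voisin's conjecture on 0-cycles for symmetric squares of curves: if `S = Sym² C`, `C` of genus
`g`, and `n > g (g - 1) / 2 = p_g(S)`, then the alternating sum of the exterior products of any `n`
Albanese-trivial 0-cycles on `S` vanishes in `CH₀(S^n)` up to the factor `2^n`. -/

set_option autoImplicit false

namespace Pool.Agent.Results.MP_83b46e_ag.SymmetricSquares

open FF Pool.Agent.W479

universe u

theorem result {k : Type u} [Field k] [IsAlgClosed k] [CharZero k]
    (F : Type u) [Field F] [Algebra k F] [IsFF k F]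
    (n : ℕ) (hn : genus k F * (genus k F - 1) / 2 < n)
    (b : Fin n → (Sym2 (Place k F) →₀ ℤ)) (hb : ∀ i, AlbTrivialSym (b i)) :
    (2 ^ n : ℤ) • (∑ σ : Equiv.Perm (Fin n),
      (Equiv.Perm.sign σ : ℤ) • prodCycle (fun i => b (σ i))) ∈ RatTrivSym k F n :=
  mainSym hn b hb

end Pool.Agent.Results.MP_83b46e_ag.SymmetricSquares
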